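import Pool.Agent.Helper8_CR.BStmts

/-!
# Module BAUT: isomorphic polynomials have the same Bernstein-Sato polynomial
-/

set_option autoImplicit false

namespace Pool.Agent.Helper8_CR.H75

open MvPolynomial Pool.Agent.Helper6_Mono Pool.Agent.Helper8_CR

section baut

variable {σ τ : Type}

/-- conjugation of operators with an isomorphism -/
noncomputable def cj (Φ : MvPolynomial τ ℂ ≃ₐ[ℂ] MvPolynomial σ ℂ) (D : OpF τ) : OpF σ :=
  fun n => Φ.toLinearMap ∘ₗ D n ∘ₗ Φ.symm.toLinearMap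

theorem cj_apply (Φ : MvPolynomial τ ℂ ≃ₐ[ℂ] MvPolynomial σ ℂ) (D : OpF τ) (n : ℕ)
    (q : MvPolynomial σ ℂ) : cj Φ D n q = Φ (D n (Φ.symm q)) := rfl

theorem mul_mem_DS (p : MvPolynomial σ ℂ) : (fun _ => mulOp p : OpF σ) ∈ DS σ :=
  Algebra.subset_adjoin (Or.inl ⟨p, rfl⟩)

theorem d_mem_DS (i : σ) : (fun _ => dOp i : OpF σ) ∈ DS σ :=
  Algebra.subset_adjoin (Or.inr (Or.inl ⟨i, rfl⟩))

theorem s_mem_DS :
    (fun n : ℕ => (n : ℂ) • (1 : Module.End ℂ (MvPolynomial σ ℂ)) : OpF σ) ∈ DS σ :=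
  Algebra.subset_adjoin (Or.inr (Or.inr rfl))

theorem conj_d [Fintype σ] (Φ : MvPolynomial τ ℂ ≃ₐ[ℂ] MvPolynomial σ ℂ) (j : τ)
    (q : MvPolynomial σ ℂ) : Φ (pderiv j (Φ.symm q)) =
      ∑ i, Φ (pderiv j (Φ.symm (X i))) * pderiv i q := by
  classical
  induction q using MvPolynomial.induction_on with
  | C a =>
    have h1 : Φ.symm (C a) = C a := Φ.symm.commutes a
    rw [h1, pderiv_C, map_zero]
    symm
    apply Finset.sum_eq_zero
    intro i _
    rw [pderiv_C, mul_zero]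
  | add p q hp hq =>
    simp only [map_add, mul_add, Finset.sum_add_distrib]
    rw [hp, hq]
  | mul_X p l hp =>
    have h1 : ∀ i, Φ (pderiv j (Φ.symm (X i))) * pderiv i (p * X l) =
        X l * (Φ (pderiv j (Φ.symm (X i))) * pderiv i p) +
          (if i = l then p * Φ (pderiv j (Φ.symm (X l))) else 0) := by
      intro i
      rw [Derivation.leibniz, smul_eq_mul, smul_eq_mul]
      split_ifs with h
      · rw [h, pderiv_X_self]
        ring
      · rw [pderiv_X_of_ne (fun h' => h h'.symm)]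
        ring
    rw [Finset.sum_congr rfl fun i _ => h1 i, Finset.sum_add_distrib, ← Finset.mul_sum, ← hp,
      Finset.sum_ite_eq' Finset.univ l, if_pos (Finset.mem_univ _), map_mul,
      Derivation.leibniz, smul_eq_mul, smul_eq_mul, map_add, map_mul, map_mul,
      AlgEquiv.apply_symm_apply, AlgEquiv.apply_symm_apply]
    ring

theorem cj_mem [Finite σ] (Φ : MvPolynomial τ ℂ ≃ₐ[ℂ] MvPolynomial σ ℂ) {D : OpF τ}
    (hD : D ∈ DS τ) : cj Φ D ∈ DS σ := by
  classical
  have := Fintype.ofFinite σ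
  induction hD using Algebra.adjoin_induction with
  | mem D h =>
    rcases h with ⟨p, rfl⟩ | ⟨i, rfl⟩ | rfl
    · have h1 : cj Φ (fun _ => mulOp p) = fun _ => mulOp (Φ p) := by
        funext n
        apply LinearMap.ext
        intro q
        show Φ (p * Φ.symm q) = Φ p * q
        rw [map_mul, AlgEquiv.apply_symm_apply]
      rw [h1]
      exact mul_mem_DS _
    · have h1 : cj Φ (fun _ => dOp i) = ∑ l : σ,
          (fun _ => mulOp (Φ (pderiv i (Φ.symm (X l)))) : OpF σ) * (fun _ => dOp l) := by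
        funext n
        apply LinearMap.ext
        intro q
        rw [Finset.sum_apply, LinearMap.sum_apply]
        exact conj_d Φ i q
      rw [h1]
      exact Subalgebra.sum_mem _ fun l _ => Subalgebra.mul_mem _ (mul_mem_DS _) (d_mem_DS _)
    · have h1 : cj Φ (fun n : ℕ => (n : ℂ) • (1 : Module.End ℂ (MvPolynomial τ ℂ))) =
          fun n : ℕ => (n : ℂ) • (1 : Module.End ℂ (MvPolynomial σ ℂ)) := by
        funext n
        apply LinearMap.ext
        intro q
        show Φ ((n : ℂ) • Φ.symm q) = (n : ℂ) • q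
        rw [map_smul, AlgEquiv.apply_symm_apply]
      rw [h1]
      exact s_mem_DS
  | algebraMap r =>
    have h1 : cj Φ (algebraMap ℂ (OpF τ) r) = algebraMap ℂ (OpF σ) r := by
      funext n
      apply LinearMap.ext
      intro q
      show Φ (r • Φ.symm q) = r • q
      rw [map_smul, AlgEquiv.apply_symm_apply]
    rw [h1]
    exact Subalgebra.algebraMap_mem _ r
  | add D D' _ _ h h' =>
    have h1 : cj Φ (D + D') = cj Φ D + cj Φ D' := by
      funext n
      apply LinearMap.ext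
      intro q
      show Φ (D n (Φ.symm q) + D' n (Φ.symm q)) = Φ (D n (Φ.symm q)) + Φ (D' n (Φ.symm q))
      rw [map_add]
    rw [h1]
    exact Subalgebra.add_mem _ h h'
  | mul D D' _ _ h h' =>
    have h1 : cj Φ (D * D') = cj Φ D * cj Φ D' := by
      funext n
      apply LinearMap.ext
      intro q
      show Φ (D n (D' n (Φ.symm q))) = Φ (D n (Φ.symm (Φ (D' n (Φ.symm q)))))
      rw [AlgEquiv.symm_apply_apply]
    rw [h1]
    exact Subalgebra.mul_mem _ h h'

theorem eval_iso (Φ : MvPolynomial τ ℂ ≃ₐ[ℂ] MvPolynomial σ ℂ) (p : σ → ℂ)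
    (h : MvPolynomial τ ℂ) : eval p (Φ h) = eval (fun j => eval p (Φ (X j))) h := by
  have h1 : (((aeval p : MvPolynomial σ ℂ →ₐ[ℂ] ℂ).comp (Φ : MvPolynomial τ ℂ →ₐ[ℂ] _))) =
      (aeval (fun j => eval p (Φ (X j))) : MvPolynomial τ ℂ →ₐ[ℂ] ℂ) := by
    ext j
    rw [aeval_X]
    show aeval p (Φ (X j)) = _
    rw [← coe_aeval_eq_eval]
    rfl
  have h2 := congrArg (fun g : MvPolynomial τ ℂ →ₐ[ℂ] ℂ => g h) h1
  rw [← coe_aeval_eq_eval, ← coe_aeval_eq_eval]
  exact h2

theorem lbs_iso [Finite σ] (Φ : MvPolynomial τ ℂ ≃ₐ[ℂ] MvPolynomial σ ℂ)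
    (F : MvPolynomial τ ℂ) (b : Polynomial ℂ) (p : σ → ℂ)
    (h : LBS F b (fun j => eval p (Φ (X j)))) : LBS (Φ F) b p := by
  obtain ⟨g, hg, D, hD, hn⟩ := h
  refine ⟨Φ g, ?_, cj Φ D, cj_mem Φ hD, fun n => ?_⟩
  · rw [eval_iso]
    exact hg
  · rw [cj_apply, map_pow, AlgEquiv.symm_apply_apply, ← hn n, map_mul, map_mul, map_pow]
    have h1 : Φ (C (b.eval (n : ℂ))) = C (b.eval (n : ℂ)) := Φ.commutes _
    rw [h1]

theorem localBS_iff (h1 : OpsStmt) (F : MvPolynomial σ ℂ) (b : Polynomial ℂ) :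
    LocalBS F b ↔ ∀ p, LBS F b p := by
  constructor
  · intro h p
    obtain ⟨g, hg, P, hP⟩ := h p
    obtain ⟨D, hD, hDP⟩ := (h1 σ).2 P
    exact ⟨g, hg, D, hD, fun n => by rw [hP n, hDP]⟩
  · intro h p
    obtain ⟨g, hg, D, hD, hn⟩ := h p
    obtain ⟨P, hP⟩ := (h1 σ).1 D hD
    exact ⟨g, hg, P, fun n => by rw [hn n, hP]⟩

theorem baut (h1 : OpsStmt) : BautStmt := by
  intro σ τ _ _ Φ F
  have h2 : {b | LocalBS (Φ F) b} = {b | LocalBS F b} := by
    ext b
    show LocalBS (Φ F) b ↔ LocalBS F b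
    rw [localBS_iff h1, localBS_iff h1]
    constructor
    · intro h p
      have h3 := lbs_iso Φ.symm (Φ F) b p (h _)
      rwa [AlgEquiv.symm_apply_apply] at h3
    · intro h p
      exact lbs_iso Φ F b p (h _)
  have h4 : ∀ (I J : Ideal (Polynomial ℂ)) (_ : I = J) [hI : Submodule.IsPrincipal I]
      [hJ : Submodule.IsPrincipal J], normalize (Submodule.IsPrincipal.generator I) =
        normalize (Submodule.IsPrincipal.generator J) := by
    intro I J hIJ _ _
    subst hIJ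
    rfl
  exact h4 _ _ (congrArg Ideal.span h2)

end baut

end Pool.Agent.Helper8_CR.H75
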