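import Pool.Agent.Helper8_CR.Stmts

/-!
# Module ISOZ: the zeta function of isomorphic polynomials
-/

set_option autoImplicit false

namespace Pool.Agent.Helper8_CR.H75

open MvPolynomial Pool.Agent.Helper6_Mono Pool.Agent.Helper6_Mono.RingPart Pool.Agent.Helper8_CR

section geo

variable {k : Type} [Field k] {σ τ : Type}

theorem aeval_congr_low {S : Type} [CommRing S] [Algebra k S] {m : ℕ}
    {γ γ' : σ → PowerSeries S}
    (h : ∀ i j, j ≤ m → PowerSeries.coeff j (γ i) = PowerSeries.coeff j (γ' i))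
    (p : MvPolynomial σ k) : ∀ j, j ≤ m → PowerSeries.coeff j (aeval γ p) =
      PowerSeries.coeff j (aeval γ' p) := by
  induction p using MvPolynomial.induction_on with
  | C a =>
    intro j _
    rw [algHom_C, algHom_C]
  | add p q hp hq =>
    intro j hj
    rw [map_add, map_add, map_add, map_add, hp j hj, hq j hj]
  | mul_X p i hp =>
    intro j hj
    rw [map_mul (aeval γ), map_mul (aeval γ'), aeval_X, aeval_X,
      coeff_mul_congr (V' := γ' i) (h i) hj, mul_comm,
      mul_comm (aeval γ' p), coeff_mul_congr (V' := aeval γ' p) hp hj]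

theorem aeval_low {S : Type} [CommRing S] [Algebra k S] (m : ℕ) (γ : τ → PowerSeries S)
    (h : σ → MvPolynomial τ k) (p : MvPolynomial σ k) (j : ℕ) (hj : j ≤ m) :
    PowerSeries.coeff j (aeval (fun i => lowS m (aeval γ (h i))) p) =
      PowerSeries.coeff j (aeval γ (aeval h p)) := by
  have h1 : aeval γ (aeval h p) = aeval (fun i => aeval γ (h i)) p := by
    rw [← comp_aeval_apply]
  rw [h1]
  refine aeval_congr_low (m := m) ?_ p j hj
  intro i j hj
  rw [coeff_lowS, if_pos hj]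

theorem jetFT [Finite σ] (l : ℕ) (ω : QZ) : FT (jetGF k (Set.univ : Set σ) l ω) :=
  FT.jet _ Set.finite_univ l ω

theorem JY_FT [Finite σ] (f : MvPolynomial σ k) (m a : ℕ) (ω : QZ) (hω : m • ω = 0) :
    FT (JY f m a ω hω).F := by
  refine FT.closed (jetFT m ω) (fun φ c γ h j hj => by
      show jf f (fun i => twS ω φ c (γ.1 i)) j = _
      rw [jf_tw, h j hj, ← one_tw hω]) (A := {j : ℕ // j ≤ a}) (w := fun j => j.1 • ω)
    (fun j => ⟨fun γ => jf f γ.1 j.1 - if j.1 = m then 1 else 0, fun {S S'} _ _ _ _ φ c γ => ?_⟩)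
    (fun S _ _ γ => ?_)
  · show jf f (fun i => twS ω φ c (γ.1 i)) j.1 - _ = _
    rw [jf_tw, map_sub, mul_sub, ← one_tw hω]
  · constructor
    · intro h j
      show _ - _ = (0 : S)
      rw [h j.1 j.2, sub_self]
    · intro h j hj
      exact sub_eq_zero.1 (h ⟨j, hj⟩)

theorem iso_jet (Φ : MvPolynomial τ k ≃ₐ[k] MvPolynomial σ k) [Finite σ] (F : MvPolynomial τ k)
    (m : ℕ) (ω : QZ) (hω : m • ω = 0) :
    OIso ((PBK fun j => Φ (X j)).app (JY F m m ω hω)) (JY (Φ F) m m ω hω) := by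
  have hΦ : ∀ p : MvPolynomial τ k, aeval (fun j => Φ (X j)) p = Φ p := by
    intro p
    have h1 : (aeval fun j => Φ (X j) : MvPolynomial τ k →ₐ[k] MvPolynomial σ k) = Φ := by
      ext i
      rw [aeval_X]
      rfl
    rw [h1]
    rfl
  have hΦ' : ∀ p : MvPolynomial σ k, aeval (fun j => Φ.symm (X j)) p = Φ.symm p := by
    intro p
    have h1 : (aeval fun j => Φ.symm (X j) : MvPolynomial σ k →ₐ[k] MvPolynomial τ k) =
        Φ.symm := by
      ext i
      rw [aeval_X]
      rfl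
    rw [h1]
    rfl
  have hc0 : ∀ {ρ S : Type} [CommRing S] [Algebra k S] (γ : ρ → PowerSeries S)
      (p : MvPolynomial ρ k), PowerSeries.coeff 0 (aeval γ p) =
        aeval (fun i => PowerSeries.coeff 0 (γ i)) p := by
    intro ρ S _ _ γ p
    induction p using MvPolynomial.induction_on with
    | C a =>
      rw [algHom_C, algHom_C, PowerSeries.algebraMap_apply, PowerSeries.coeff_zero_C]
    | add p q hp hq => rw [map_add, map_add, map_add, hp, hq]
    | mul_X p i hp =>
      rw [map_mul (aeval γ), map_mul (aeval _), aeval_X, aeval_X, coeff_zero_mul, hp]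
  have hsupp : ∀ {S : Type} [CommRing S] (U : PowerSeries S) (j : ℕ), m < j →
      PowerSeries.coeff j (lowS m U) = 0 := by
    intro S _ U j hj
    rw [coeff_lowS, if_neg (by omega)]
  refine OIso.mk'
    (fun S _ _ x => ⟨⟨fun i => lowS m (aeval x.1.1.1.1 (Φ.symm (X i))), ?_⟩, ?_⟩)
    (fun S _ _ y => ⟨(⟨⟨fun i => lowS m (aeval y.1.1 (Φ (X i))), ?_⟩, ?_⟩,
      fun i => PowerSeries.coeff 0 (y.1.1 i)), ?_⟩) ?_ ?_ ?_ ?_
  · intro i j h
    rcases h with h | h
    · exact absurd (Set.mem_univ i) h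
    · exact hsupp _ j h
  · intro j hj
    show PowerSeries.coeff j (aeval (fun i => lowS m (aeval x.1.1.1.1 (Φ.symm (X i)))) (Φ F)) = _
    rw [aeval_low m _ _ _ j hj, hΦ', AlgEquiv.symm_apply_apply]
    exact x.1.1.2 j hj
  · intro i j h
    rcases h with h | h
    · exact absurd (Set.mem_univ i) h
    · exact hsupp _ j h
  · intro j hj
    show PowerSeries.coeff j (aeval (fun i => lowS m (aeval y.1.1 (Φ (X i)))) F) = _
    rw [aeval_low m _ _ _ j hj, hΦ]
    exact y.2 j hj
  · intro i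
    show PowerSeries.coeff 0 (lowS m (aeval y.1.1 (Φ (X i)))) -
      aeval (fun i => PowerSeries.coeff 0 (y.1.1 i)) (Φ (X i)) = 0
    rw [coeff_lowS, if_pos (Nat.zero_le m), hc0, sub_self]
  · intro S _ _ x
    have hx := x.2
    refine Subtype.ext (Prod.ext (Subtype.ext (Subtype.ext ?_)) ?_)
    · funext i
      ext j
      show PowerSeries.coeff j (lowS m (aeval (fun i => lowS m (aeval x.1.1.1.1 (Φ.symm (X i))))
        (Φ (X i)))) = PowerSeries.coeff j (x.1.1.1.1 i)
      rw [coeff_lowS]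
      split_ifs with hj
      · rw [aeval_low m _ _ _ j hj, hΦ', AlgEquiv.symm_apply_apply, aeval_X]
      · exact (x.1.1.1.2 i j (Or.inr (by omega))).symm
    · funext i
      show PowerSeries.coeff 0 (lowS m (aeval x.1.1.1.1 (Φ.symm (X i)))) = x.1.2 i
      rw [coeff_lowS, if_pos (Nat.zero_le m), hc0]
      have h1 : (fun j => PowerSeries.coeff 0 (x.1.1.1.1 j)) =
          fun j => aeval x.1.2 (Φ (X j)) := by
        funext j
        exact sub_eq_zero.1 (hx j)
      rw [h1]
      have h2 : aeval (fun j => aeval x.1.2 (Φ (X j))) (Φ.symm (X i)) =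
          aeval x.1.2 (aeval (fun j => Φ (X j)) (Φ.symm (X i))) := by
        rw [← comp_aeval_apply]
      rw [h2, hΦ, AlgEquiv.apply_symm_apply, aeval_X]
  · intro S _ _ y
    refine Subtype.ext (Subtype.ext ?_)
    funext i
    ext j
    show PowerSeries.coeff j (lowS m (aeval (fun i => lowS m (aeval y.1.1 (Φ (X i))))
        (Φ.symm (X i)))) = PowerSeries.coeff j (y.1.1 i)
    rw [coeff_lowS]
    split_ifs with hj
    · rw [aeval_low m _ _ _ j hj, hΦ, AlgEquiv.apply_symm_apply, aeval_X]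
    · exact (y.1.2 i j (Or.inr (by omega))).symm
  · intro S S' _ _ _ _ φ c x
    refine Subtype.ext (Subtype.ext ?_)
    funext i
    show lowS m (aeval (fun i => twS ω φ c (x.1.1.1.1 i)) (Φ.symm (X i))) =
      twS ω φ c (lowS m (aeval x.1.1.1.1 (Φ.symm (X i))))
    rw [twS_lowS, ← comp_aeval_apply]
  · intro S _ _ x i
    show PowerSeries.coeff 0 (lowS m (aeval x.1.1.1.1 (Φ.symm (X i)))) = x.1.2 i
    rw [coeff_lowS, if_pos (Nat.zero_le m), hc0]
    have h1 : (fun j => PowerSeries.coeff 0 (x.1.1.1.1 j)) =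
        fun j => aeval x.1.2 (Φ (X j)) := by
      funext j
      exact sub_eq_zero.1 (x.2 j)
    rw [h1]
    have h2 : aeval (fun j => aeval x.1.2 (Φ (X j))) (Φ.symm (X i)) =
        aeval x.1.2 (aeval (fun j => Φ (X j)) (Φ.symm (X i))) := by
      rw [← comp_aeval_apply]
    rw [h2, hΦ, AlgEquiv.apply_symm_apply, aeval_X]

theorem isoz (h1 : PbhStmt) (h2 : ZmapStmt) (h3 : PresStmt) : IsozStmt := by
  intro k _ σ τ _ _ hcard Φ F S hF
  obtain ⟨ψ, hψL, hψ⟩ := h1 k σ τ F (Φ F) (fun j => Φ (X j)) (by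
    have : bind₁ (fun j => Φ (X j)) F = Φ F := by
      have h1 : (bind₁ fun j => Φ (X j) : MvPolynomial τ k →ₐ[k] MvPolynomial σ k) = Φ := by
        ext i
        rw [bind₁_X_right]
        rfl
      rw [h1]
      rfl
    rw [this]
    exact Ideal.mem_span_singleton_self _)
  have hpow : ∀ a : ℤ, ψ (Lpow F a) = Lpow (Φ F) a := by
    intro a
    have h4 : Units.map (ψ : MM F →* MM (Φ F)) (LL F) = LL (Φ F) := Units.ext hψL
    show ((Units.map (ψ : MM F →* MM (Φ F)) (LL F ^ a) : (MM (Φ F))ˣ) : MM (Φ F)) = _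
    rw [map_zpow, h4]
    rfl
  have hZ : PowerSeries.map ψ (Zf F) = Zf (Φ F) := by
    ext m
    rw [PowerSeries.coeff_map]
    unfold Zf
    rw [PowerSeries.coeff_mk, PowerSeries.coeff_mk]
    unfold zetaCoeff
    split_ifs with hm
    · rw [map_zero]
    · have hω : m • ((((1 : ℚ) / m : ℚ)) : QZ) = 0 := by
        rw [← AddCircle.coe_nsmul, nsmul_eq_mul, mul_one_div_cancel (by exact_mod_cast hm)]
        exact AddCircle.coe_period 1
      rw [map_mul, hpow, hcard, (h3 k τ F m hm hω).1, (h3 k σ (Φ F) m hm hω).1,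
        hψ _ (JY_FT F m m _ hω)]
      congr 1
      exact (chi (Φ F)).iso ((PBK fun j => Φ (X j)).app_FT (JY_FT F m m _ hω))
        (iso_jet Φ F m _ hω)
  have h5 := h2 k σ τ F (Φ F) ψ hψL S (Zf F) 0 hF
  rw [hZ] at h5
  have h6 : Lpow (Φ F) 0 = 1 := by
    unfold Lpow
    rw [zpow_zero]
    rfl
  have h7 : (S.image fun p : ℤ × ℕ => (p.1 + 0 * (p.2 : ℤ), p.2)) = S := by
    have : (fun p : ℤ × ℕ => (p.1 + 0 * (p.2 : ℤ), p.2)) = id := by
      funext p
      simp
    rw [this, Finset.image_id]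
  rw [h6, h7, PowerSeries.rescale_one] at h5
  exact h5

end geo

end Pool.Agent.Helper8_CR.H75
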