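import Pool.Agent.Helper8_CR.SStmts

/-!
# Module SST: stabilization of simplicial nondegenerate polynomials
-/

set_option autoImplicit false

namespace Pool.Agent.Helper8_CR.H75

open MvPolynomial Pool.Agent.Helper6_Mono Pool.Agent.Helper30_Simp Pool.Agent.Helper8_CR

section sst

variable {k : Type} [Field k] {σ : Type}

/-- the exponent of `u_j v_j` -/
noncomputable def pex (σ : Type) {r : ℕ} (j : Fin r) : SV σ r →₀ ℕ :=
  Finsupp.single (Sum.inr (Sum.inl j)) 1 + Finsupp.single (Sum.inr (Sum.inr j)) 1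

/-- the exponent of the old variables -/
noncomputable def oex {σ : Type} (r : ℕ) (β : σ →₀ ℕ) : SV σ r →₀ ℕ :=
  Finsupp.mapDomain Sum.inl β

theorem oex_inl {r : ℕ} (β : σ →₀ ℕ) (i : σ) : oex r β (Sum.inl i) = β i :=
  Finsupp.mapDomain_apply Sum.inl_injective β i

theorem oex_inr {r : ℕ} (β : σ →₀ ℕ) (i : Fin r ⊕ Fin r) : oex r β (Sum.inr i) = 0 := by
  classical
  apply Finsupp.mapDomain_of_notMem_range
  rintro ⟨a, ha⟩
  cases ha

theorem pex_inl {r : ℕ} (j : Fin r) (i : σ) : pex σ j (Sum.inl i) = 0 := by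
  simp [pex]

theorem pex_u {r : ℕ} (j l : Fin r) : pex σ j (Sum.inr (Sum.inl l)) = if j = l then 1 else 0 := by
  classical
  rw [pex, Finsupp.add_apply, Finsupp.single_apply, Finsupp.single_apply]
  simp

theorem XX_eq {r : ℕ} (j : Fin r) :
    (X (Sum.inr (Sum.inl j)) * X (Sum.inr (Sum.inr j)) : MvPolynomial (SV σ r) k) =
      monomial (pex σ j) 1 := by
  rw [X, X, monomial_mul, one_mul]
  rfl

theorem mem_stab {r : ℕ} (f : MvPolynomial σ k) {α : SV σ r →₀ ℕ}
    (h : α ∈ (stab f r).support) : (∃ β ∈ f.support, α = oex r β) ∨ ∃ j, α = pex σ j := by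
  classical
  by_contra hc
  push Not at hc
  obtain ⟨h1, h2⟩ := hc
  rw [mem_support_iff] at h
  apply h
  unfold stab
  rw [coeff_add, coeff_sum]
  have h3 : coeff α (rename Sum.inl f : MvPolynomial (SV σ r) k) = 0 := by
    by_contra h4
    obtain ⟨u, hu, hu'⟩ := coeff_rename_ne_zero _ _ _ h4
    exact h1 u (mem_support_iff.2 hu') hu.symm
  rw [h3, zero_add]
  apply Finset.sum_eq_zero
  intro j _
  rw [XX_eq, coeff_monomial, if_neg (fun h => h2 j h.symm)]

theorem mem_stab_of {r : ℕ} (f : MvPolynomial σ k) {β : σ →₀ ℕ}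
    (h : β ∈ f.support) : oex r β ∈ (stab f r).support := by
  classical
  rw [mem_support_iff] at h ⊢
  unfold stab
  rw [coeff_add, coeff_sum]
  have h3 : coeff (oex r β) (rename Sum.inl f : MvPolynomial (SV σ r) k) = coeff β f :=
    coeff_rename_mapDomain _ Sum.inl_injective _ _
  rw [h3, Finset.sum_eq_zero, add_zero]
  · exact h
  · intro j _
    rw [XX_eq, coeff_monomial, if_neg]
    intro h
    have h4 := congrArg (fun z : SV σ r →₀ ℕ => z (Sum.inr (Sum.inl j))) h
    simp only [pex_u, oex_inr, if_true] at h4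
    exact one_ne_zero h4

variable [Fintype σ]

theorem dot_oex {r : ℕ} (u : SV σ r → ℝ) (β : σ →₀ ℕ) :
    dot u (oex r β) = dot (fun i => u (Sum.inl i)) β := by
  unfold dot
  rw [Fintype.sum_sum_type]
  have h1 : ∑ x : Fin r ⊕ Fin r, u (Sum.inr x) * ((oex r β (Sum.inr x) : ℕ) : ℝ) = 0 := by
    apply Finset.sum_eq_zero
    intro x _
    rw [oex_inr, Nat.cast_zero, mul_zero]
  rw [h1, add_zero]
  simp only [oex_inl]

/-- exponents as vectors -/
def vex {ρ : Type} (α : ρ →₀ ℕ) : ρ → ℝ := fun i => (α i : ℝ)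

/-- extension by zero -/
def exz (σ : Type) (r : ℕ) : (σ → ℝ) →ₗ[ℝ] (SV σ r → ℝ) where
  toFun v := Sum.elim v 0
  map_add' v w := by
    funext i
    cases i with
    | inl i => rfl
    | inr i => exact (add_zero (0 : ℝ)).symm
  map_smul' c v := by
    funext i
    cases i with
    | inl i => rfl
    | inr i => exact (mul_zero c).symm

theorem simp_stab (f : MvPolynomial σ k) (r : ℕ) (h : Simplicial f.support) :
    Simplicial (stab f r).support := by
  intro u hu hpos
  have h1 := h (fun i => u (Sum.inl i)) (fun i => hu _) (fun α hα => by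
    rw [← dot_oex]
    exact hpos _ (mem_stab_of f hα))
  have hsub : face (stab f r).support u ⊆
      (oex r '' face f.support (fun i => u (Sum.inl i))) ∪ (pex σ '' (Set.univ : Set (Fin r))) := by
    rintro α ⟨hα, hmin⟩
    rcases mem_stab f hα with ⟨β, hβ, rfl⟩ | ⟨j, rfl⟩
    · refine Or.inl ⟨β, ⟨hβ, fun β' hβ' => ?_⟩, rfl⟩
      have := hmin _ (mem_stab_of f hβ')
      rwa [dot_oex, dot_oex] at this
    · exact Or.inr ⟨j, trivial, rfl⟩
  have h2 : LinearIndepOn ℝ (vex (ρ := SV σ r))
      (oex r '' face f.support (fun i => u (Sum.inl i))) := by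
    apply LinearIndepOn.image_of_comp
    have h3 : (vex (ρ := SV σ r)) ∘ oex r = fun β : σ →₀ ℕ => exz σ r (vex β) := by
      funext β i
      cases i with
      | inl i =>
        show ((oex r β (Sum.inl i) : ℕ) : ℝ) = ((β i : ℕ) : ℝ)
        rw [oex_inl]
      | inr i =>
        show ((oex r β (Sum.inr i) : ℕ) : ℝ) = 0
        rw [oex_inr, Nat.cast_zero]
    rw [h3]
    have h4 : LinearMap.ker (exz σ r) = ⊥ := by
      rw [LinearMap.ker_eq_bot]
      intro v w hvw
      funext i
      exact congrFun hvw (Sum.inl i)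
    exact LinearIndependent.map' h1 (exz σ r) h4
  have h5 : LinearIndepOn ℝ (vex (ρ := SV σ r)) (pex σ '' (Set.univ : Set (Fin r))) := by
    apply LinearIndepOn.image_of_comp
    rw [linearIndepOn_univ_iff]
    apply LinearIndependent.of_comp
      (LinearMap.funLeft ℝ ℝ (fun j : Fin r => (Sum.inr (Sum.inl j) : SV σ r)))
    have h6 : (LinearMap.funLeft ℝ ℝ (fun j : Fin r => (Sum.inr (Sum.inl j) : SV σ r))) ∘
        ((vex (ρ := SV σ r)) ∘ pex σ) = fun j => (Pi.single j (1 : ℝ) : Fin r → ℝ) := by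
      funext j l
      show ((pex σ j (Sum.inr (Sum.inl l)) : ℕ) : ℝ) = (Pi.single j (1 : ℝ) : Fin r → ℝ) l
      rw [pex_u, Pi.single_apply]
      by_cases hjl : j = l
      · rw [if_pos hjl, if_pos hjl.symm, Nat.cast_one]
      · rw [if_neg hjl, if_neg (fun h => hjl h.symm), Nat.cast_zero]
    rw [h6]
    exact Pi.linearIndependent_single_one (Fin r) ℝ
  have h7 : Disjoint (Submodule.span ℝ ((vex (ρ := SV σ r)) ''
      (oex r '' face f.support (fun i => u (Sum.inl i)))))
      (Submodule.span ℝ ((vex (ρ := SV σ r)) '' (pex σ '' (Set.univ : Set (Fin r))))) := by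
    rw [Submodule.disjoint_def]
    intro x hx hx'
    have hA : ∀ i, x (Sum.inr i) = 0 := by
      intro i
      refine Submodule.span_induction (p := fun x _ => x (Sum.inr i) = 0) ?_ ?_ ?_ ?_ hx
      · rintro _ ⟨_, ⟨β, _, rfl⟩, rfl⟩
        show ((oex r β (Sum.inr i) : ℕ) : ℝ) = 0
        rw [oex_inr, Nat.cast_zero]
      · rfl
      · intro x y _ _ hx hy
        show x (Sum.inr i) + y (Sum.inr i) = 0
        rw [hx, hy, add_zero]
      · intro c x _ hx
        show c * x (Sum.inr i) = 0
        rw [hx, mul_zero]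
    have hB : ∀ i, x (Sum.inl i) = 0 := by
      intro i
      refine Submodule.span_induction (p := fun x _ => x (Sum.inl i) = 0) ?_ ?_ ?_ ?_ hx'
      · rintro _ ⟨_, ⟨j, _, rfl⟩, rfl⟩
        show ((pex σ j (Sum.inl i) : ℕ) : ℝ) = 0
        rw [pex_inl, Nat.cast_zero]
      · rfl
      · intro x y _ _ hx hy
        show x (Sum.inl i) + y (Sum.inl i) = 0
        rw [hx, hy, add_zero]
      · intro c x _ hx
        show c * x (Sum.inl i) = 0
        rw [hx, mul_zero]
    funext i
    cases i with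
    | inl i => exact hB i
    | inr i => exact hA i
  exact (h2.union h5 h7).mono hsub

theorem restr_stab (f : MvPolynomial σ k) (r : ℕ) (A : Finset (SV σ r)) :
    ∃ A' : Finset σ, restr A (stab f r) = rename Sum.inl (restr A' f) +
      ∑ j : Fin r, (open Classical in if Sum.inr (Sum.inl j) ∈ A ∨ Sum.inr (Sum.inr j) ∈ A then
        (0 : MvPolynomial (SV σ r) k)
        else X (Sum.inr (Sum.inl j)) * X (Sum.inr (Sum.inr j))) := by
  classical
  refine ⟨Finset.univ.filter (fun i => Sum.inl i ∈ A), ?_⟩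
  unfold restr stab
  rw [map_add, map_sum]
  congr 1
  · rw [aeval_rename, comp_aeval_apply]
    refine congrArg (fun φ : σ → MvPolynomial (SV σ r) k => aeval φ f) ?_
    funext i
    rw [Function.comp_apply]
    by_cases hi : (Sum.inl i : SV σ r) ∈ A
    · have hi' : i ∈ Finset.univ.filter (fun i => (Sum.inl i : SV σ r) ∈ A) :=
        Finset.mem_filter.2 ⟨Finset.mem_univ _, hi⟩
      rw [if_pos hi, if_pos hi', map_zero]
    · have hi' : i ∉ Finset.univ.filter (fun i => (Sum.inl i : SV σ r) ∈ A) :=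
        fun h => hi (Finset.mem_filter.1 h).2
      rw [if_neg hi, if_neg hi', rename_X]
  · refine Finset.sum_congr rfl fun j _ => ?_
    rw [map_mul, aeval_X, aeval_X]
    by_cases h1 : (Sum.inr (Sum.inl j) : SV σ r) ∈ A
    · rw [if_pos h1, if_pos (Or.inl h1), zero_mul]
    · by_cases h2 : (Sum.inr (Sum.inr j) : SV σ r) ∈ A
      · rw [if_pos h2, if_pos (Or.inr h2), mul_zero]
      · rw [if_neg h1, if_neg h2, if_neg (by tauto)]

omit [Fintype σ] in
theorem pderiv_rename_inr {r : ℕ} (g : MvPolynomial σ k) (i : Fin r ⊕ Fin r) :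
    pderiv (Sum.inr i) (rename Sum.inl g : MvPolynomial (SV σ r) k) = 0 := by
  classical
  induction g using MvPolynomial.induction_on with
  | C a => rw [rename_C, pderiv_C]
  | add p q hp hq => rw [map_add, map_add, hp, hq, add_zero]
  | mul_X p l hp =>
    rw [map_mul, rename_X, Derivation.leibniz, hp, pderiv_X_of_ne (by simp), smul_zero, smul_zero,
      add_zero]

theorem nondeg_stab (f : MvPolynomial σ k) (r : ℕ) (h : Nondeg f) : Nondeg (stab f r) := by
  classical
  intro A hA
  obtain ⟨A', hA'⟩ := restr_stab f r A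
  by_cases hJ : ∃ j : Fin r, ¬ (Sum.inr (Sum.inl j) ∈ A ∨ Sum.inr (Sum.inr j) ∈ A)
  · obtain ⟨j, hj⟩ := hJ
    have h1 : pderiv (Sum.inr (Sum.inl j)) (restr A (stab f r)) =
        (X (Sum.inr (Sum.inr j)) : MvPolynomial (SV σ r) k) := by
      rw [hA', map_add, pderiv_rename_inr, zero_add, map_sum, Finset.sum_eq_single j]
      · rw [if_neg hj, Derivation.leibniz, pderiv_X_of_ne (by simp), pderiv_X_self, smul_zero,
          zero_add, smul_eq_mul, mul_one]
      · intro l _ hl
        split_ifs with h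
        · rw [map_zero]
        · rw [Derivation.leibniz, pderiv_X_of_ne (by simp), pderiv_X_of_ne (by simp [hl]),
            smul_zero, smul_zero, add_zero]
      · intro h
        exact absurd (Finset.mem_univ _) h
    unfold TorusSmooth
    apply Ideal.le_radical
    have h2 : (X (Sum.inr (Sum.inr j)) : MvPolynomial (SV σ r) k) ∈
        Ideal.span ({restr A (stab f r)} ∪ Set.range fun j => pderiv j (restr A (stab f r))) :=
      Ideal.subset_span (Or.inr ⟨Sum.inr (Sum.inl j), h1⟩)
    obtain ⟨c, hc⟩ := Finset.dvd_prod_of_mem (fun i => (X i : MvPolynomial (SV σ r) k))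
      (Finset.mem_univ (Sum.inr (Sum.inr j) : SV σ r))
    rw [hc]
    exact Ideal.mul_mem_right _ _ h2
  · push Not at hJ
    have h1 : restr A (stab f r) = rename Sum.inl (restr A' f) := by
      rw [hA', Finset.sum_eq_zero, add_zero]
      intro j _
      rw [if_pos (hJ j)]
    have h2 : restr A' f ≠ 0 := by
      intro h3
      rw [h3, map_zero] at h1
      exact hA h1
    have h3 := h A' h2
    unfold TorusSmooth at h3 ⊢
    rw [h1]
    obtain ⟨N, hN⟩ := h3
    refine ⟨N, ?_⟩
    rw [Fintype.prod_sum_type, mul_pow]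
    apply Ideal.mul_mem_right
    have h4 : (∏ i : σ, (X (Sum.inl i) : MvPolynomial (SV σ r) k)) ^ N =
        (rename Sum.inl : MvPolynomial σ k →ₐ[k] MvPolynomial (SV σ r) k) ((∏ i, X i) ^ N) := by
      rw [map_pow, map_prod]
      simp only [rename_X]
    rw [h4]
    have h5 : Ideal.span ({restr A' f} ∪ Set.range fun j => pderiv j (restr A' f)) ≤
        (Ideal.span ({(rename Sum.inl (restr A' f) : MvPolynomial (SV σ r) k)} ∪
          Set.range fun j => pderiv j (rename Sum.inl (restr A' f) : MvPolynomial (SV σ r) k))).comap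
        ((rename Sum.inl : MvPolynomial σ k →ₐ[k] MvPolynomial (SV σ r) k)) := by
      rw [Ideal.span_le]
      rintro x (hx | ⟨j, rfl⟩)
      · rw [Set.mem_singleton_iff] at hx
        rw [hx]
        exact Ideal.subset_span (Or.inl rfl)
      · refine Ideal.subset_span (Or.inr ⟨Sum.inl j, ?_⟩)
        show pderiv (Sum.inl j) (rename Sum.inl (restr A' f) : MvPolynomial (SV σ r) k) =
          rename Sum.inl (pderiv j (restr A' f))
        rw [pderiv_rename Sum.inl_injective]
    exact h5 hN

theorem sst : SstStmt := fun _ _ _ _ f r h1 h2 => ⟨simp_stab f r h1, nondeg_stab f r h2⟩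

end sst

end Pool.Agent.Helper8_CR.H75
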